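import Pool.Agent.Lib.MP_0430e4_lc.YG.B3
import Pool.Agent.Lib.MP_0430e4_lc.AC.YGap

/-!
# Branch I: soft edge and strict gap beyond the tip (helper64)

`Tc η s = (S (cS η) s - K1 η) / 4` is the derivative of `GG - log (1 - Z ^ 2) / 2` at `c = cval (2 η)`.
-/

set_option autoImplicit false

namespace Pool.Agent.Lib.MP_0430e4_lc.YK

open Complex LPLOW Filter Topology Set YG AC
open Lower (zz GG KK f0 fa T2)
open LPLOW.Pos (K1)

variable {η : ℝ}

/-- the critical value of the constant term -/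
noncomputable def kst (η : ℝ) : ℝ := (1 - K1 η) / 4

/-- the derivative of `GG - log (1 - Z ^ 2) / 2` at the critical value -/
noncomputable def Tc (η : ℝ) (s : ℂ) : ℂ := (S (cS η) s - (K1 η : ℂ)) / 4

theorem kst_eq {t : ℝ} (ht : 0 < t) :
    (Exact.cval t - f0 (Real.exp (-(t / 2)) ^ 2)) / (t / 2) = kst (t / 2) := by
  have hη : 0 < t / 2 := by linarith
  have h1 := cval_eq_f0 ht
  rw [Lower.r_eq hη] at h1
  unfold kst
  rw [h1]
  field_simp
  ring

theorem Tc_tip (η : ℝ) : Tc η (I * (Real.pi / 2)) = 0 := by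
  unfold Tc
  rw [Pos.SS_pi, sub_self, zero_div]

theorem Tc_top_im (η σ : ℝ) : (Tc η ((σ : ℂ) + I * (Real.pi / 2))).im = 0 := by
  unfold Tc
  rw [Pos.SS_eq, ← Complex.ofReal_sub]
  have : ((4 : ℝ) : ℂ) = 4 := by norm_num
  rw [← this, ← Complex.ofReal_div, Complex.ofReal_im]

theorem re_div_four (w : ℂ) : (w / 4).re = w.re / 4 := by
  have : (4 : ℂ) = ((4 : ℝ) : ℂ) := by norm_num
  rw [this, Complex.div_ofReal_re]

theorem Tc_zero_re {t : ℝ} (ht : 0 < t) : 0 < (Tc (t / 2) 0).re := by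
  have hη : 0 < t / 2 := by linarith
  have h1 := slope_crit ht
  have h2 := kst_eq ht
  have h3 := Exact.sI_pos ht
  have h4 : 0 < Ar (t / 2) 0 := Ar_pos hη (by simpa using hη)
  have h5 : (Tc (t / 2) 0).re = kst (t / 2) + ((S (cS (t / 2)) 0).re - 1) / 4 := by
    unfold Tc kst
    rw [re_div_four, Complex.sub_re, Complex.ofReal_re]
    ring
  rw [h5, ← h2]
  have h6 : f0 (Real.exp (-(t / 2)) ^ 2) = f0 (nm (t / 2)) := rfl
  rw [h6, h1]
  positivity

section
variable (hη : 0 < η)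
include hη

theorem hasDerivAt_UUc {s : ℂ} (hs : |s.re| < η) : HasDerivAt (UU η (kst η)) (Tc η s) s := by
  refine (hasDerivAt_UU hη (kst η) hs).congr_deriv ?_
  unfold Tc kst
  push_cast
  ring

theorem Tc_diff {s : ℂ} (hs : |s.re| < η) : DifferentiableAt ℂ (Tc η) s := by
  unfold Tc
  exact (((dec_cS hη).hasDerivAt hs).differentiableAt.sub_const _).div_const _

theorem Tc_analytic : AnalyticOnNhd ℂ (Tc η) {w : ℂ | |w.re| < η} :=
  DifferentiableOn.analyticOnNhd (fun _ hs => (Tc_diff hη hs).differentiableWithinAt) isOpen_str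

theorem Tc_top_re_le {σ : ℝ} (hσ : |σ| < η) : (Tc η ((σ : ℂ) + I * (Real.pi / 2))).re ≤ 0 := by
  have h1 := SS_re_le hη hσ
  rw [Pos.SS_pi, Complex.ofReal_re] at h1
  unfold Tc
  rw [re_div_four, Complex.sub_re, Complex.ofReal_re]
  linarith

/-- the real part of the majorant in terms of `UU` -/
theorem GG_re_UU (c : ℝ) {s : ℂ} (h0 : 0 ≤ s.re) (h1 : s.re < η) :
    (GG (Real.exp (-η) ^ 2) c s).re =
      (UU η ((c - f0 (Real.exp (-η) ^ 2)) / η) s).re + Real.log ‖1 - Z η s ^ 2‖ / 2 := by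
  have hU := Lower.S_cU hη h0 h1
  have hsq := Lower.one_sub_zz_sq hη h0 h1
  have e2 : Real.log ‖1 - Z η s ^ 2‖ = 2 * f0 (Real.exp (-η) ^ 2) -
      (T2 (fa (Real.exp (-η) ^ 2)) (Complex.exp (2 * s))).re := by
    unfold Z
    rw [hsq, Complex.norm_exp, Real.log_exp]
    simp
  rw [e2, Lower.GG_re, eta_r hη]
  unfold UU
  rw [Complex.add_re, Complex.re_ofReal_mul]
  have e1 : (S (LPLOW.cU η) s).re = -(KK (Real.exp (-η) ^ 2) (Complex.exp (2 * s))).re +
      (T2 (fa (Real.exp (-η) ^ 2)) (Complex.exp (2 * s))).re / 2 := by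
    rw [cU_eq_lower, hU]
    have h3 : (1 / 2 : ℂ) * T2 (fa (Real.exp (-η) ^ 2)) (Complex.exp (2 * s))
        = (((1 / 2 : ℝ)) : ℂ) * T2 (fa (Real.exp (-η) ^ 2)) (Complex.exp (2 * s)) := by
      push_cast; rfl
    rw [h3, Complex.add_re, Complex.neg_re, Complex.re_ofReal_mul]
    ring
  rw [e1]
  ring


/-! ### the line `Im s = π/2` -/

omit hη in
theorem top_form (σ : ℝ) : (σ : ℂ) + (Real.pi / 2 : ℝ) * I = (σ : ℂ) + I * (Real.pi / 2) := by
  push_cast
  ring

theorem V_deriv {σ : ℝ} (h : |σ| < η) :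
    HasDerivAt (fun x : ℝ => (UU η (kst η) ((x : ℂ) + (Real.pi / 2 : ℝ) * I)).re)
      (Tc η ((σ : ℂ) + (Real.pi / 2 : ℝ) * I)).re σ :=
  hasDerivAt_re_line (f := UU η (kst η)) (f' := Tc η) (hasDerivAt_UUc hη (by simpa using h))

omit hη in
theorem V_zero : (UU η (kst η) (((0 : ℝ) : ℂ) + (Real.pi / 2 : ℝ) * I)).re = 0 :=
  UU_re_imag _ _ (by simp)

theorem V_anti : AntitoneOn (fun x : ℝ => (UU η (kst η) ((x : ℂ) + (Real.pi / 2 : ℝ) * I)).re)
    (Ico 0 η) := by
  apply antitoneOn_of_deriv_nonpos (convex_Ico 0 η)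
  · intro t ht
    exact (V_deriv hη (abs_lt.2 ⟨by linarith [ht.1], ht.2⟩)).continuousAt.continuousWithinAt
  · rw [interior_Ico]
    intro t ht
    exact (V_deriv hη (abs_lt.2 ⟨by linarith [ht.1],
      ht.2⟩)).differentiableAt.differentiableWithinAt
  · rw [interior_Ico]
    intro t ht
    have h : |t| < η := abs_lt.2 ⟨by linarith [ht.1], ht.2⟩
    rw [(V_deriv hη h).deriv, top_form]
    exact Tc_top_re_le hη h

/-- `Tc` does not vanish on a set with an accumulation point -/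
theorem Tc_frequently {s0 : ℂ} (h0 : |s0.re| < η) (h : ∃ᶠ s in 𝓝[≠] s0, Tc η s = 0) : False := by
  have h1 := (Tc_analytic hη).eqOn_zero_of_preconnected_of_frequently_eq_zero
    (Jac.strip_preconnected η) h0 h
  have h2 := h1 (x := 0) (by simpa using hη)
  have h3 := Tc_zero_re (t := 2 * η) (by linarith)
  have h4 : 2 * η / 2 = η := by ring
  rw [h4, h2] at h3
  simp at h3

/-- strictly negative beyond the tip -/
theorem V_neg {x : ℝ} (h0 : 0 < x) (h1 : x < η) :
    (UU η (kst η) ((x : ℂ) + (Real.pi / 2 : ℝ) * I)).re < 0 := by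
  have hm := V_anti hη
  have hz := V_zero (η := η)
  have hle : ∀ t : ℝ, 0 ≤ t → t < η →
      (UU η (kst η) ((t : ℂ) + (Real.pi / 2 : ℝ) * I)).re ≤ 0 := by
    intro t ht0 ht1
    have := hm ⟨le_rfl, hη⟩ ⟨ht0, ht1⟩ ht0
    simp only at this
    linarith
  rcases (hle x h0.le h1).lt_or_eq with h | h
  · exact h
  exfalso
  have hzero : ∀ t : ℝ, 0 < t → t < x →
      (UU η (kst η) ((t : ℂ) + (Real.pi / 2 : ℝ) * I)).re = 0 := by
    intro t ht0 ht1
    have e1 := hle t ht0.le (ht1.trans h1)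
    have e2 := hm ⟨ht0.le, ht1.trans h1⟩ ⟨h0.le, h1⟩ ht1.le
    simp only at e2
    linarith
  have hT : ∀ t : ℝ, 0 < t → t < x → Tc η ((t : ℂ) + (Real.pi / 2 : ℝ) * I) = 0 := by
    intro t ht0 ht1
    have hd := V_deriv hη (σ := t) (abs_lt.2 ⟨by linarith, ht1.trans h1⟩)
    have hd0 : HasDerivAt (fun x : ℝ => (UU η (kst η) ((x : ℂ) + (Real.pi / 2 : ℝ) * I)).re)
        0 t := by
      refine (hasDerivAt_const t (0 : ℝ)).congr_of_eventuallyEq ?_
      filter_upwards [Ioo_mem_nhds ht0 ht1] with u hu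
      exact hzero u hu.1 hu.2
    have e1 := hd.unique hd0
    have e2 := Tc_top_im η t
    rw [← top_form] at e2
    exact Complex.ext e1 e2
  refine Tc_frequently hη (s0 := ((x / 2 : ℝ) : ℂ) + (Real.pi / 2 : ℝ) * I)
    (by simp only [Complex.add_re, Complex.ofReal_re, Complex.mul_re, Complex.I_re, mul_zero,
          Complex.ofReal_im, Complex.I_im, mul_one, sub_self, add_zero]
        rw [abs_of_pos (by linarith)]; linarith) ?_
  have hmap : Tendsto (fun t : ℝ => (t : ℂ) + ((Real.pi / 2 : ℝ) : ℂ) * I) (𝓝[>] (x / 2))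
      (𝓝[≠] (((x / 2 : ℝ) : ℂ) + ((Real.pi / 2 : ℝ) : ℂ) * I)) := by
    apply tendsto_nhdsWithin_iff.2
    constructor
    · have : Continuous (fun t : ℝ => (t : ℂ) + ((Real.pi / 2 : ℝ) : ℂ) * I) := by fun_prop
      exact (this.tendsto (x / 2)).mono_left nhdsWithin_le_nhds
    · filter_upwards [self_mem_nhdsWithin] with t ht
      intro hcon
      have h5 := congrArg Complex.re hcon
      simp at h5
      exact absurd h5 (ne_of_gt ht)
  refine hmap.frequently (Filter.Eventually.frequently ?_)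
  filter_upwards [Ioo_mem_nhdsGT (show x / 2 < x by linarith)] with t ht
  exact hT t (by linarith [ht.1]) ht.2

omit hη in
theorem UU_conj (κ : ℝ) (s : ℂ) : (UU η κ (starRingEnd ℂ s)).re = (UU η κ s).re := by
  unfold UU
  rw [S_conj, Complex.add_re, Complex.add_re, Complex.conj_re, Complex.re_ofReal_mul,
    Complex.re_ofReal_mul, Complex.conj_re]

/-- **the strict gap beyond the tip**, in the strip -/
theorem gap_top {s : ℂ} (h0 : 0 < s.re) (h1 : s.re < η) (hi : |s.im| = Real.pi / 2) :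
    (GG (Real.exp (-η) ^ 2) (Exact.cval (2 * η)) s).re < Real.log ‖1 - Z η s ^ 2‖ / 2 := by
  have hpi := Real.pi_pos
  have hk := kst_eq (t := 2 * η) (by linarith)
  have h4 : 2 * η / 2 = η := by ring
  rw [h4] at hk
  rw [GG_re_UU hη _ h0.le h1, hk]
  have h2 : (UU η (kst η) s).re < 0 := by
    rcases (abs_eq (by linarith)).1 hi with h | h
    · have h3 := V_neg hη h0 h1
      have e : ((s.re : ℝ) : ℂ) + (Real.pi / 2 : ℝ) * I = s := by
        apply Complex.ext <;> simp [h]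
      rwa [e] at h3
    · have h3 := V_neg hη h0 h1
      have e : ((s.re : ℝ) : ℂ) + (Real.pi / 2 : ℝ) * I = starRingEnd ℂ s := by
        apply Complex.ext <;> simp [h]
      rwa [e, UU_conj] at h3
  linarith

end

/-! ### the slit -/

/-- the tip of the slit -/
noncomputable def tip (η : ℝ) : ℝ := (Z η ((Real.pi / 2 : ℝ) * I)).im

theorem Z_slit (τ : ℝ) : Z η (τ * I) = ((Z η (τ * I)).im : ℂ) * I := by
  apply Complex.ext
  · simp only [Complex.mul_re, Complex.ofReal_re, Complex.I_re, mul_zero, Complex.ofReal_im,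
      Complex.I_im, mul_one, sub_self]
    exact Z_re_zero (by simp)
  · simp

theorem Z_slit_neg (τ : ℝ) : (Z η ((-τ : ℝ) * I)).im = -(Z η (τ * I)).im := by
  have h : ((-τ : ℝ) : ℂ) * I = -(τ * I) := by push_cast; ring
  rw [h, Z_neg, Complex.neg_im]

section
variable (hη : 0 < η)
include hη

theorem slit_deriv (τ : ℝ) :
    HasDerivAt (fun x : ℝ => (Z η (x * I)).im)
      ((AA η (τ * I)).re * (1 + (Z η (τ * I)).im ^ 2)) τ := by
  have h1 := Z_deriv hη (s := (τ : ℂ) * I) (by simpa using hη)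
  have h2 : HasDerivAt (fun t : ℝ => (t : ℂ) * I) I τ := by
    simpa using (Complex.ofRealCLM.hasDerivAt (x := τ)).mul_const I
  have h3 := h1.scomp τ h2
  have h4 := Complex.imCLM.hasFDerivAt.comp_hasDerivAt τ h3
  refine h4.congr_deriv ?_
  have hA : (AA η (τ * I)).im = 0 := S_real_imag (cA_neg η) _ (by simp)
  have hZ := Z_slit (η := η) τ
  have e1 : AA η (τ * I) = ((AA η (τ * I)).re : ℂ) := by
    apply Complex.ext <;> simp [hA]
  have e2 : 1 - Z η (τ * I) ^ 2 = ((1 + (Z η (τ * I)).im ^ 2 : ℝ) : ℂ) := by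
    rw [hZ, mul_pow, Complex.I_sq]
    simp
  rw [e2, e1, ← Complex.ofReal_mul, smul_eq_mul, mul_comm I]
  simp only [Complex.imCLM_apply, Complex.mul_im, Complex.ofReal_re, Complex.I_im, mul_one,
    Complex.ofReal_im, Complex.I_re, mul_zero, add_zero]

theorem slit_mono : MonotoneOn (fun x : ℝ => (Z η (x * I)).im)
    (Icc (-(Real.pi / 2)) (Real.pi / 2)) := by
  apply monotoneOn_of_deriv_nonneg (convex_Icc _ _)
  · intro t _
    exact (slit_deriv hη t).continuousAt.continuousWithinAt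
  · intro t _
    exact (slit_deriv hη t).differentiableAt.differentiableWithinAt
  · rw [interior_Icc]
    intro t ht
    rw [(slit_deriv hη t).deriv]
    have h2 : 0 ≤ (AA η (t * I)).re := by
      refine re_A_nonneg hη (by simpa using hη) ?_
      simp
      exact (abs_lt.2 ⟨ht.1, ht.2⟩).le
    positivity

theorem slit_abs_le {τ : ℝ} (h : |τ| ≤ Real.pi / 2) : |(Z η (τ * I)).im| ≤ tip η := by
  have hm := slit_mono hη
  have hpi := Real.pi_pos
  have h1 := abs_le.1 h
  have e1 := hm (a := τ) (b := Real.pi / 2) ⟨h1.1, h1.2⟩ ⟨by linarith, le_rfl⟩ h1.2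
  have e2 := hm (a := -(Real.pi / 2)) (b := τ) ⟨le_rfl, by linarith⟩ ⟨h1.1, h1.2⟩ h1.1
  simp only at e1 e2
  rw [Z_slit_neg] at e2
  unfold tip
  rw [abs_le]
  exact ⟨e2, e1⟩

theorem tip_nonneg : 0 ≤ tip η := by
  have h := slit_abs_le hη (τ := 0) (by rw [abs_zero]; linarith [Real.pi_pos])
  exact (abs_nonneg _).trans h

theorem tip_lt_one : tip η < 1 := by
  have h1 : ‖Z η ((Real.pi / 2 : ℝ) * I)‖ < 1 := Z_norm_lt_one hη (by simp) (by simpa using hη)
  have h2 := Complex.abs_im_le_norm (Z η ((Real.pi / 2 : ℝ) * I))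
  have h3 := le_abs_self (Z η ((Real.pi / 2 : ℝ) * I)).im
  unfold tip
  linarith

/-- **the strict gap beyond the tip**, in the disc -/
theorem gap_disc {z : ℂ} (hz : ‖z‖ ≤ 1) (hr : z.re = 0) (h : tip η < |z.im|) :
    UG η (Exact.cval (2 * η)) z < Real.log (1 + z.im ^ 2) / 2 := by
  have e1 : ‖(1 : ℂ) - z ^ 2‖ = 1 + z.im ^ 2 := by
    have hz2 : z = (z.im : ℂ) * I := by apply Complex.ext <;> simp [hr]
    have : (1 : ℂ) - z ^ 2 = ((1 + z.im ^ 2 : ℝ) : ℂ) := by
      rw [hz2, mul_pow, Complex.I_sq]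
      simp
    rw [this, Complex.norm_real, Real.norm_of_nonneg (by positivity)]
  rcases hz.lt_or_eq with hz1 | hz1
  · obtain ⟨s, hs, hsz⟩ := surj_right hη hz hr.ge
    have hs' := mem_Rc.1 hs
    have hlt : s.re < η := by
      rcases hs'.1.2.lt_or_eq with h2 | h2
      · exact h2
      · have := Z_norm hη h2
        rw [hsz] at this
        linarith
    have hpos : 0 < s.re := by
      rcases hs'.1.1.lt_or_eq with h2 | h2
      · exact h2
      · exfalso
        have e : s = (s.im : ℂ) * I := by apply Complex.ext <;> simp [← h2]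
        have h3 := slit_abs_le hη hs'.2
        rw [← e, hsz] at h3
        linarith
    have hi : |s.im| = Real.pi / 2 := by
      have hpi := Real.pi_pos
      rcases of_re_eq_zero hη hs'.1.1 hlt hs'.2 (by rw [hsz]; exact hr) with h2 | h2 | h2
      · exact absurd h2 hpos.ne'
      · rw [h2, abs_of_pos (by linarith)]
      · rw [h2, abs_neg, abs_of_pos (by linarith)]
    have h5 := gap_top hη hpos hlt hi
    rw [← UG_Z hη _ hs'.1.1 hs'.1.2, hsz, e1] at h5
    exact h5
  · rw [UG_rim hη _ hz1]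
    have h2 := cval_lt_half (t := 2 * η) (by linarith)
    have h3 : z.im ^ 2 = 1 := by
      have := Complex.sq_norm z
      rw [hz1, Complex.normSq_apply, hr] at this
      linarith
    rw [h3]
    norm_num
    exact h2

/-- the gap, uniformly beyond the window -/
theorem gap_unif {w : ℝ} (hw : 0 < w) : ∃ g : ℝ, 0 < g ∧ ∀ y : ℝ, tip η + w ≤ |y| → |y| ≤ 1 →
    UG η (Exact.cval (2 * η)) (y * I) ≤ Real.log (1 + y ^ 2) / 2 - g := by
  have hnorm : ∀ y : ℝ, ‖(y : ℂ) * I‖ = |y| := fun y => by simp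
  set K : Set ℝ := {y | tip η + w ≤ |y| ∧ |y| ≤ 1} with hK
  have hKc : IsCompact K := by
    have h1 : IsClosed K := by
      rw [hK]
      exact (isClosed_le continuous_const continuous_abs).inter
        (isClosed_le continuous_abs continuous_const)
    refine (isCompact_Icc (a := (-1 : ℝ)) (b := 1)).of_isClosed_subset h1 ?_
    intro y hy
    exact abs_le.1 hy.2
  rcases K.eq_empty_or_nonempty with he | hne
  · refine ⟨1, one_pos, fun y h1 h2 => ?_⟩
    have : y ∈ K := ⟨h1, h2⟩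
    rw [he] at this
    exact absurd this (Set.notMem_empty _)
  have hcont : ContinuousOn (fun y : ℝ => Real.log (1 + y ^ 2) / 2 -
      UG η (Exact.cval (2 * η)) (y * I)) K := by
    apply ContinuousOn.sub
    · apply Continuous.continuousOn
      have : Continuous fun y : ℝ => Real.log (1 + y ^ 2) := by
        apply Continuous.log (by fun_prop)
        intro y
        positivity
      exact this.div_const 2
    · refine (UG_cont hη _).comp (f := fun y : ℝ => (y : ℂ) * I) (by fun_prop) ?_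
      intro y hy
      rw [mem_closedBall_zero_iff, hnorm]
      exact hy.2
  obtain ⟨y0, hy0, hmin⟩ := hKc.exists_isMinOn hne hcont
  refine ⟨Real.log (1 + y0 ^ 2) / 2 - UG η (Exact.cval (2 * η)) (y0 * I), ?_, fun y h1 h2 => ?_⟩
  · have h3 := gap_disc hη (z := (y0 : ℂ) * I) (by rw [hnorm]; exact hy0.2) (by simp)
      (by simp; linarith [hy0.1])
    simp at h3
    linarith
  · have h3 : Real.log (1 + y0 ^ 2) / 2 - UG η (Exact.cval (2 * η)) (y0 * I) ≤
        Real.log (1 + y ^ 2) / 2 - UG η (Exact.cval (2 * η)) (y * I) := hmin (a := y) ⟨h1, h2⟩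
    linarith

/-- **beyond the window**: every function with the bounds of a certificate of nearly optimal mass
is exponentially small relative to `(1 + y ^ 2) ^ (n / 2)` -/
theorem beyond {w : ℝ} (hw : 0 < w) : ∃ g : ℝ, 0 < g ∧ ∀ (F : ℂ → ℂ) (N : ℝ) (n : ℕ), 0 ≤ N →
    Differentiable ℂ F →
    (∀ z : ℂ, ‖z‖ = 1 → ‖F z‖ ≤ N * Real.exp (n * (Exact.cval (2 * η) + g))) →
    (∀ y : ℝ, ‖F ((y : ℂ) * Complex.I)‖ ≤ N * √(1 + y ^ 2) ^ n) →
    ∀ y : ℝ, tip η + w ≤ |y| → |y| ≤ 1 →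
      ‖F ((y : ℂ) * Complex.I)‖ ≤ N * Real.exp (n * (Real.log (1 + y ^ 2) / 2 - g)) := by
  obtain ⟨g, hg, h⟩ := gap_unif hη hw
  refine ⟨g / 2, by linarith, fun F N n hN hF h1 h2 y hy1 hy2 => ?_⟩
  have hz : ‖(y : ℂ) * Complex.I‖ ≤ 1 := by simpa using hy2
  have h3 := three_lines_disc hη (Exact.cval (2 * η) + g / 2) hF n h1 h2 hz
  refine h3.trans ?_
  apply mul_le_mul_of_nonneg_left _ hN
  apply Real.exp_le_exp.2
  apply mul_le_mul_of_nonneg_left _ (Nat.cast_nonneg n)
  rw [UG_add hη]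
  have h4 := om_le hη hz
  have h5 := h y hy1 hy2
  have h6 : g / 2 / η * om η ((y : ℂ) * Complex.I) ≤ g / 2 := by
    rw [div_mul_eq_mul_div, div_le_iff₀ hη]
    exact mul_le_mul_of_nonneg_left h4 (by linarith)
  linarith

end

end Pool.Agent.Lib.MP_0430e4_lc.YK
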