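import Pool.Agent.Lib.MP_0430e4_lc.YK.K1
import Pool.Agent.Lib.MP_0430e4_lc.LPLOW.ContII

/-!
# Branch I: monotonicity in the modulus (helper64)

`Dv η = AA(0)`, `Bv η = OO(0)`, `kk η = 2 Dv / Bv = sin ψ₀`. We show
`Bv = (2/π) ∫_0^{π/2} (1 - k² sin² θ)^{-1/2}`, hence `kk`, the tip and `sI` are strictly decreasing.
-/

set_option autoImplicit false

namespace Pool.Agent.Lib.MP_0430e4_lc.YK

open Complex LPLOW Filter Topology Set YG AC
open Lower (zz GG KK f0 fa T2)
open LPLOW.Pos (K1)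
open LPLOW.BII
open Exact (sech)

variable {η : ℝ}

/-- `AA(0)` -/
noncomputable def Dv (η : ℝ) : ℝ := (S (cA η) 0).re
/-- `OO(0)` -/
noncomputable def Bv (η : ℝ) : ℝ := (S (cO η) 0).re
/-- `AA` on the imaginary axis -/
noncomputable def av (η τ : ℝ) : ℝ := (S (cA η) (τ * I)).re
/-- `OO` on the imaginary axis -/
noncomputable def ov (η τ : ℝ) : ℝ := (S (cO η) (τ * I)).re
/-- the amplitude -/
noncomputable def pv (η τ : ℝ) : ℝ := (Lam η (τ * I)).im
/-- the modulus -/
noncomputable def kk (η : ℝ) : ℝ := 2 * Dv η / Bv η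

theorem S_real {c : ℤ → ℝ} (h : ∀ k, c (-k) = c k) (τ : ℝ) :
    S c (τ * I) = ((S c (τ * I)).re : ℂ) := by
  have := S_real_imag h (τ * I) (by simp)
  apply Complex.ext <;> simp [this]

theorem A_zero_eq : S (cA η) 0 = (Dv η : ℂ) := by
  have := S_real (cA_neg η) 0
  simpa [Dv] using this

theorem O_zero_eq' : S (cO η) 0 = (Bv η : ℂ) := by
  have := S_real (cO_neg η) 0
  simpa [Bv] using this

theorem Lam_neg (u : ℂ) : Lam η (-u) = -Lam η u := by
  unfold Lam
  rw [S_neg_odd (cM_neg η)]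
  ring

theorem Lam_zero : Lam η 0 = 0 := by
  have h := Lam_neg (η := η) 0
  rw [neg_zero] at h
  have h2 : (2 : ℂ) * Lam η 0 = 0 := by linear_combination h
  simpa using h2

theorem Lam_slit (τ : ℝ) : Lam η (τ * I) = (pv η τ : ℂ) * I := by
  have := Lam_re_imag (η := η) (τ * I) (by simp)
  apply Complex.ext
  · simpa using this
  · simp [pv]

theorem pv_zero : pv η 0 = 0 := by
  unfold pv
  simp [Lam_zero]

theorem pv_half_pi : pv η (Real.pi / 2) = Real.pi / 2 := by
  have h1 : S (cM η) ((Real.pi / 2 : ℝ) * I) = S (cM η) (-((Real.pi / 2 : ℝ) * I)) := by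
    unfold S
    congr 1
    funext k
    by_cases hk : Even k
    · congr 1
      obtain ⟨m, hm⟩ := hk
      have e1 : (k : ℂ) * ((Real.pi / 2 : ℝ) * I)
          = (k : ℂ) * (-((Real.pi / 2 : ℝ) * I)) + m * (2 * Real.pi * I) := by
        rw [hm]
        push_cast
        ring
      rw [e1, Complex.exp_add, Complex.exp_int_mul_two_pi_mul_I, mul_one]
    · unfold cM
      rw [if_neg hk]
      simp
  rw [S_neg_odd (cM_neg η)] at h1
  have h2 : (2 : ℂ) * S (cM η) ((Real.pi / 2 : ℝ) * I) = 0 := by linear_combination h1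
  have h3 : S (cM η) ((Real.pi / 2 : ℝ) * I) = 0 := by simpa using h2
  unfold pv Lam
  rw [h3]
  simp

section
variable (hη : 0 < η)
include hη

theorem Dv_pos : 0 < Dv η := A_zero_pos hη

theorem Bv_pos : 0 < Bv η := O_zero_pos hη

theorem ov_pos (τ : ℝ) : 0 < ov η τ := by
  have := OO_re_pos hη τ
  unfold ov
  rwa [mul_comm]

theorem pv_deriv (τ : ℝ) : HasDerivAt (pv η) (ov η τ) τ := by
  have h1 := hasDerivAt_Lam hη (s := (τ : ℂ) * I) (by simpa using hη)
  have h2 : HasDerivAt (fun t : ℝ => (t : ℂ) * I) I τ := by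
    simpa using (Complex.ofRealCLM.hasDerivAt (x := τ)).mul_const I
  have h3 := h1.scomp τ h2
  have h4 := Complex.imCLM.hasFDerivAt.comp_hasDerivAt τ h3
  refine h4.congr_deriv ?_
  rw [S_real (cO_neg η)]
  simp [ov]

theorem W_exp {u : ℂ} (hu : |u.re| < η) :
    S (cA η) u + S (cC η) u = (Dv η : ℂ) * Complex.exp (Lam η u) := by
  have h := Jac.strip_const (η := η)
    (f := fun w => (S (cA η) w + S (cC η) w) * Complex.exp (-Lam η w))
    (fun w hw => by
      have h1 := W_hasDerivAt hη hw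
      have h2 := (hasDerivAt_Lam hη hw).neg.cexp
      refine (h1.mul h2).congr_deriv ?_
      ring) hu (v := 0) (by simpa using hη)
  simp only [cC_zero, Lam_zero, neg_zero, Complex.exp_zero, add_zero, mul_one] at h
  rw [A_zero_eq] at h
  rw [← h, mul_assoc, ← Complex.exp_add]
  simp

theorem W_exp_neg {u : ℂ} (hu : |u.re| < η) :
    S (cA η) u - S (cC η) u = (Dv η : ℂ) * Complex.exp (-Lam η u) := by
  have h := W_exp hη (u := -u) (by simpa using hu)
  rw [W_neg, Lam_neg] at h
  exact h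

theorem av_eq (τ : ℝ) : av η τ = Dv η * Real.cos (pv η τ) := by
  have h1 := W_exp hη (u := τ * I) (by simpa using hη)
  have h2 := W_exp_neg hη (u := τ * I) (by simpa using hη)
  rw [Lam_slit] at h1 h2
  have h3 : S (cA η) (τ * I) = (Dv η : ℂ) * Complex.cos (pv η τ) := by
    rw [Complex.cos]
    rw [← neg_mul] at h2
    linear_combination (h1 + h2) / 2
  unfold av
  rw [h3, ← Complex.ofReal_cos, ← Complex.ofReal_mul, Complex.ofReal_re]

theorem C_slit (τ : ℝ) : S (cC η) (τ * I) = ((Dv η * Real.sin (pv η τ) : ℝ) : ℂ) * I := by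
  have h1 := W_exp hη (u := τ * I) (by simpa using hη)
  have h2 := W_exp_neg hη (u := τ * I) (by simpa using hη)
  rw [Lam_slit] at h1 h2
  have h3 : S (cC η) (τ * I) = (Dv η : ℂ) * Complex.sin (pv η τ) * I := by
    rw [Complex.sin]
    rw [← neg_mul] at h2
    linear_combination (h1 - h2) / 2 - (Dv η : ℂ) * (Complex.exp (-↑(pv η τ) * I) -
      Complex.exp (↑(pv η τ) * I)) / 2 * Complex.I_sq
  rw [h3]
  push_cast
  ring

theorem ov_sq (τ : ℝ) : ov η τ ^ 2 = Bv η ^ 2 - 4 * Dv η ^ 2 * Real.sin (pv η τ) ^ 2 := by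
  have h1 := jac_OA hη (u := τ * I) (by simpa using hη)
  have h2 := jac_OA hη (u := 0) (by simpa using hη)
  rw [← h2, S_real (cO_neg η), S_real (cA_neg η), A_zero_eq, O_zero_eq'] at h1
  have h3 : ov η τ ^ 2 - 4 * av η τ ^ 2 = Bv η ^ 2 - 4 * Dv η ^ 2 := by
    unfold ov av
    exact_mod_cast h1
  rw [av_eq hη, mul_pow, Real.cos_sq'] at h3
  linarith

theorem kk_pos : 0 < kk η := by
  unfold kk
  have := Dv_pos hη
  have := Bv_pos hη
  positivity

theorem kk_lt_one : kk η < 1 := by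
  have h1 := ov_sq hη (Real.pi / 2)
  have h2 := ov_pos hη (Real.pi / 2)
  rw [pv_half_pi, Real.sin_pi_div_two] at h1
  have h3 := Dv_pos hη
  have h4 := Bv_pos hη
  unfold kk
  rw [div_lt_one h4]
  nlinarith [pow_pos h2 2]

theorem ov_eq (τ : ℝ) : ov η τ = Bv η * √(1 - kk η ^ 2 * Real.sin (pv η τ) ^ 2) := by
  have h4 := Bv_pos hη
  have h5 : Bv η ^ 2 * (1 - kk η ^ 2 * Real.sin (pv η τ) ^ 2) = ov η τ ^ 2 := by
    rw [ov_sq hη]
    unfold kk
    field_simp
    ring
  have h6 : 1 - kk η ^ 2 * Real.sin (pv η τ) ^ 2 = (ov η τ / Bv η) ^ 2 := by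
    rw [div_pow, ← h5]
    field_simp
  rw [h6, Real.sqrt_sq (div_nonneg (ov_pos hη τ).le h4.le)]
  field_simp

omit hη in
theorem one_sub_pos {k : ℝ} (h0 : 0 ≤ k) (h1 : k < 1) (θ : ℝ) :
    0 < 1 - k ^ 2 * Real.sin θ ^ 2 := by
  have h2 : k ^ 2 < 1 := by nlinarith
  have h3 : Real.sin θ ^ 2 ≤ 1 := Real.sin_sq_le_one θ
  nlinarith [sq_nonneg k, sq_nonneg (Real.sin θ)]

end

/-- the integrand of the complete integral of the first kind -/
noncomputable def gF (k θ : ℝ) : ℝ := (√(1 - k ^ 2 * Real.sin θ ^ 2))⁻¹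

theorem gF_cont {k : ℝ} (h0 : 0 ≤ k) (h1 : k < 1) : Continuous (gF k) := by
  unfold gF
  refine Continuous.inv₀ (by fun_prop) (fun θ => ?_)
  exact (Real.sqrt_pos.2 (one_sub_pos h0 h1 θ)).ne'

theorem gF_mono {k k' : ℝ} (h0 : 0 ≤ k) (h : k ≤ k') (h1 : k' < 1) (θ : ℝ) : gF k θ ≤ gF k' θ := by
  unfold gF
  apply inv_anti₀ (Real.sqrt_pos.2 (one_sub_pos (h0.trans h) h1 θ))
  apply Real.sqrt_le_sqrt
  have : k ^ 2 ≤ k' ^ 2 := by nlinarith
  nlinarith [sq_nonneg (Real.sin θ)]

theorem gF_pos {k : ℝ} (h0 : 0 ≤ k) (h1 : k < 1) (θ : ℝ) : 0 < gF k θ :=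
  inv_pos.2 (Real.sqrt_pos.2 (one_sub_pos h0 h1 θ))

/-- complete integral of the first kind (four times) -/
noncomputable def cF (k : ℝ) : ℝ := ∫ θ in (0 : ℝ)..(2 * Real.pi), gF k θ

/-- `∫ cos² / √(1 - k² sin²)` -/
noncomputable def cG (k : ℝ) : ℝ := ∫ θ in (0 : ℝ)..(2 * Real.pi), Real.cos θ ^ 2 * gF k θ

theorem cF_mono {k k' : ℝ} (h0 : 0 ≤ k) (h : k ≤ k') (h1 : k' < 1) : cF k ≤ cF k' := by
  unfold cF
  apply intervalIntegral.integral_mono_on (by linarith [Real.pi_pos])
    ((gF_cont h0 (h.trans_lt h1)).intervalIntegrable _ _)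
    ((gF_cont (h0.trans h) h1).intervalIntegrable _ _)
  intro θ _
  exact gF_mono h0 h h1 θ

theorem cG_mono {k k' : ℝ} (h0 : 0 ≤ k) (h : k ≤ k') (h1 : k' < 1) : cG k ≤ cG k' := by
  unfold cG
  apply intervalIntegral.integral_mono_on (by linarith [Real.pi_pos])
    (((Real.continuous_cos.pow 2).mul (gF_cont h0 (h.trans_lt h1))).intervalIntegrable _ _)
    (((Real.continuous_cos.pow 2).mul (gF_cont (h0.trans h) h1)).intervalIntegrable _ _)
  intro θ _
  exact mul_le_mul_of_nonneg_left (gF_mono h0 h h1 θ) (sq_nonneg _)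

theorem cG_pos {k : ℝ} (h0 : 0 ≤ k) (h1 : k < 1) : 0 < cG k := by
  unfold cG
  apply intervalIntegral.integral_pos (by linarith [Real.pi_pos])
    ((Real.continuous_cos.pow 2).mul (gF_cont h0 h1)).continuousOn
  · intro θ _
    exact mul_nonneg (sq_nonneg _) (gF_pos h0 h1 θ).le
  · refine ⟨0, ⟨le_rfl, by linarith [Real.pi_pos]⟩, ?_⟩
    show 0 < Real.cos 0 ^ 2 * gF k 0
    rw [Real.cos_zero, one_pow, one_mul]
    exact gF_pos h0 h1 0

theorem pv_two_pi : pv η (2 * Real.pi) = 2 * Real.pi := by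
  have h := Lam_periodic η 0
  rw [zero_add, Lam_zero, zero_add] at h
  unfold pv
  have e : ((2 * Real.pi : ℝ) : ℂ) * I = 2 * Real.pi * I := by push_cast; ring
  rw [e, h]
  simp

section
variable (hη : 0 < η)
include hη

theorem pv_cont : Continuous (pv η) :=
  continuous_iff_continuousAt.2 fun τ => (pv_deriv hη τ).continuousAt

theorem ov_cont : Continuous (ov η) := by
  have h : Continuous fun τ : ℝ => √(1 - kk η ^ 2 * Real.sin (pv η τ) ^ 2) := by
    have := pv_cont hη
    fun_prop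
  have e : ov η = fun τ => Bv η * √(1 - kk η ^ 2 * Real.sin (pv η τ) ^ 2) := by
    funext τ
    exact ov_eq hη τ
  rw [e]
  exact continuous_const.mul h

/-- substitution -/
theorem subst {g : ℝ → ℝ} (hg : Continuous g) :
    ∫ τ in (0 : ℝ)..(2 * Real.pi), g (pv η τ) * ov η τ = ∫ θ in (0 : ℝ)..(2 * Real.pi), g θ := by
  have h := intervalIntegral.integral_comp_mul_deriv (a := 0) (b := 2 * Real.pi) (f := pv η)
    (f' := ov η) (g := g) (fun τ _ => pv_deriv hη τ) (ov_cont hη).continuousOn hg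
  rw [pv_zero, pv_two_pi] at h
  exact h

theorem gF_mul_ov (τ : ℝ) : gF (kk η) (pv η τ) * ov η τ = Bv η := by
  rw [ov_eq hη]
  unfold gF
  have := (Real.sqrt_pos.2 (one_sub_pos (kk_pos hη).le (kk_lt_one hη) (pv η τ))).ne'
  field_simp

theorem Bv_eq : Bv η * (2 * Real.pi) = cF (kk η) := by
  have h := subst hη (gF_cont (kk_pos hη).le (kk_lt_one hη))
  unfold cF
  rw [← h]
  simp only [gF_mul_ov hη]
  rw [intervalIntegral.integral_const]
  simp [mul_comm]

theorem integral_av : Dv η ^ 2 * cG (kk η) = Bv η * ∫ τ in (0 : ℝ)..(2 * Real.pi), av η τ ^ 2 := by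
  have h := subst hη ((Real.continuous_cos.pow 2).mul (gF_cont (kk_pos hη).le (kk_lt_one hη)))
  simp only [Pi.mul_apply, Pi.pow_apply] at h
  unfold cG
  rw [← h, ← intervalIntegral.integral_const_mul, ← intervalIntegral.integral_const_mul]
  congr 1
  funext τ
  rw [mul_assoc (Real.cos (pv η τ) ^ 2), gF_mul_ov hη, av_eq hη]
  ring

/-- Parseval -/
theorem parseval : ∫ τ in (0 : ℝ)..(2 * Real.pi), av η τ ^ 2 = Real.pi * (S (cT η) 0).re := by
  have hd := dec_cA hη
  have hcd : Summable (fun N => |cvl (cA η) (cA η) N|) := by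
    have h6 := summable_mul_of_summable_norm (hd.summable_coeff hη).of_abs.norm
      (hd.summable_coeff hη).of_abs.norm
    let e : ℤ × ℤ ≃ ℤ × ℤ :=
      { toFun := fun p => (p.2, p.1 - p.2)
        invFun := fun p => (p.1 + p.2, p.1)
        left_inv := fun p => by ext <;> simp
        right_inv := fun p => by ext <;> simp }
    have h7 : Summable (fun p : ℤ × ℤ => cA η p.2 * cA η (p.1 - p.2)) :=
      (e.summable_iff (f := fun x : ℤ × ℤ => cA η x.1 * cA η x.2)).2 h6
    exact h7.prod.abs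
  have h1 : ∀ v : ℝ, S (cvl (cA η) (cA η)) (2 * v * I) = ((av η (2 * v) ^ 2 : ℝ) : ℂ) := by
    intro v
    rw [← S_mul hd hd (s := 2 * v * I) (by simpa using hη)]
    have e : (2 : ℂ) * v * I = ((2 * v : ℝ) : ℂ) * I := by push_cast; ring
    rw [e, S_real (cA_neg η)]
    unfold av
    push_cast
    ring
  have h2 := Pos.integral_S hcd
  simp only [h1] at h2
  rw [intervalIntegral.integral_ofReal] at h2
  have h3 : cvl (cA η) (cA η) 0 = (S (cT η) 0).re / 2 := by
    rw [S_zero, Complex.ofReal_re, ← tsum_div_const]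
    unfold cvl
    apply tsum_congr
    intro k
    rw [zero_sub, cA_neg]
    unfold cA cT
    split_ifs <;> ring
  rw [h3] at h2
  have h4 : ∫ v in (0 : ℝ)..Real.pi, av η (2 * v) ^ 2
      = (∫ τ in (0 : ℝ)..(2 * Real.pi), av η τ ^ 2) / 2 := by
    have := intervalIntegral.integral_comp_mul_left (a := 0) (b := Real.pi)
      (fun τ => av η τ ^ 2) (c := 2) (by norm_num)
    rw [this, mul_zero, smul_eq_mul]
    ring
  rw [h4] at h2
  have h5 : (∫ τ in (0 : ℝ)..(2 * Real.pi), av η τ ^ 2) / 2 = Real.pi * ((S (cT η) 0).re / 2) := by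
    exact_mod_cast h2
  linarith

/-- the level in terms of the modulus -/
theorem level_eq : (S (cT η) 0).re / Dv η = kk η / (2 * Real.pi) * cG (kk η) := by
  have h1 := integral_av hη
  have h2 := parseval hη
  rw [h2] at h1
  have hD := Dv_pos hη
  have hB := Bv_pos hη
  have hpi := Real.pi_pos
  have h3 : cG (kk η) = Bv η * (Real.pi * (S (cT η) 0).re) / Dv η ^ 2 := by
    rw [← h1]
    field_simp
  rw [h3]
  unfold kk
  field_simp

end

/-! ### monotonicity -/

theorem Dv_eq (hη : 0 < η) : Dv η = ∑' j : ℕ, sech ((j + 1 / 2) * (2 * η)) := by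
  have h := S_cA_zero (t := 2 * η) (by linarith)
  have e : 2 * η / 2 = η := by ring
  rw [e] at h
  exact h

theorem sech_lt {x y : ℝ} (hx : 0 ≤ x) (hxy : x < y) : sech y < sech x := by
  unfold Exact.sech
  apply inv_strictAnti₀ (Real.cosh_pos x)
  rw [Real.cosh_lt_cosh, abs_of_nonneg hx, abs_of_pos (by linarith)]
  exact hxy

theorem Dv_strictAnti {η η' : ℝ} (h0 : 0 < η) (h : η < η') : Dv η' < Dv η := by
  rw [Dv_eq h0, Dv_eq (h0.trans h)]
  apply Summable.tsum_lt_tsum (i := 0)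
  · intro j
    apply le_of_lt
    apply sech_lt (by positivity)
    have : (0 : ℝ) < j + 1 / 2 := by positivity
    nlinarith
  · apply sech_lt (by positivity)
    norm_num
    exact h
  · exact Exact.summable_half (by linarith)
  · exact Exact.summable_half (by linarith)

/-- **the modulus is strictly decreasing** -/
theorem kk_strictAnti {η η' : ℝ} (h0 : 0 < η) (h : η < η') : kk η' < kk η := by
  have h0' := h0.trans h
  by_contra hcon
  push Not at hcon
  have h1 := cF_mono (kk_pos h0).le hcon (kk_lt_one h0')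
  rw [← Bv_eq h0, ← Bv_eq h0'] at h1
  have hpi := Real.pi_pos
  have h2 : Bv η ≤ Bv η' := le_of_mul_le_mul_right h1 (by positivity)
  have e1 : Dv η = kk η * Bv η / 2 := by
    have := (Bv_pos h0).ne'
    unfold kk
    field_simp
  have e2 : Dv η' = kk η' * Bv η' / 2 := by
    have := (Bv_pos h0').ne'
    unfold kk
    field_simp
  have h3 : kk η * Bv η ≤ kk η' * Bv η' :=
    mul_le_mul hcon h2 (Bv_pos h0).le (kk_pos h0').le
  have h4 := Dv_strictAnti h0 h
  linarith

theorem ratio_strictMono {η η' : ℝ} (h0 : 0 < η) (h : η < η') : Bv η / Dv η < Bv η' / Dv η' := by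
  have h0' := h0.trans h
  have h1 := kk_strictAnti h0 h
  unfold kk at h1
  have hB := Bv_pos h0
  have hB' := Bv_pos h0'
  have hD := Dv_pos h0
  have hD' := Dv_pos h0'
  rw [div_lt_div_iff₀ hB' hB] at h1
  rw [div_lt_div_iff₀ hD hD']
  nlinarith

/-- **the level `1 - 2 δ` is strictly decreasing on branch I** -/
theorem sI_strictAnti {t t' : ℝ} (h0 : 0 < t) (h : t < t') : Exact.sI t' < Exact.sI t := by
  have h0' := h0.trans h
  have a0 : 0 < t / 2 := by linarith
  have a1 : t / 2 < t' / 2 := by linarith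
  have a2 : 0 < t' / 2 := by linarith
  rw [← sI_eq h0, ← sI_eq h0']
  have e1 := level_eq a0
  have e2 := level_eq a2
  unfold Dv at e1 e2
  rw [e1, e2]
  have hk := kk_strictAnti a0 a1
  have h1 := cG_mono (kk_pos a2).le hk.le (kk_lt_one a0)
  have h2 := cG_pos (kk_pos a2).le (kk_lt_one a2)
  have hpi := Real.pi_pos
  apply mul_lt_mul _ h1 h2 (div_nonneg (kk_pos a0).le (by positivity))
  apply div_lt_div_of_pos_right hk (by positivity)

/-! ### the tip -/

theorem LL_zero : LL η 0 = 0 := by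
  have h := LL_neg (η := η) 0
  rw [neg_zero] at h
  have h2 : (2 : ℂ) * LL η 0 = 0 := by linear_combination h
  simpa using h2

section
variable (hη : 0 < η)
include hη

theorem OC_exp {u : ℂ} (hu : |u.re| < η) :
    S (cO η) u + 2 * S (cC η) u = (Bv η : ℂ) * Complex.exp (2 * LL η u) := by
  have h := Jac.strip_const (η := η)
    (f := fun w => (S (cO η) w + 2 * S (cC η) w) * Complex.exp (-(2 * LL η w)))
    (fun w hw => by
      have h1 := (OO_hasDerivAt hη hw).add ((CC_hasDerivAt hη hw).const_mul 2)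
      have h2 := ((LL_deriv hη hw).const_mul 2).neg.cexp
      refine (h1.mul h2).congr_deriv ?_
      unfold AA
      simp only [Pi.add_apply, Pi.neg_apply]
      ring) hu (v := 0) (by simpa using hη)
  simp only [cC_zero, LL_zero, mul_zero, neg_zero, Complex.exp_zero, add_zero, mul_one] at h
  rw [O_zero_eq'] at h
  rw [← h, mul_assoc, ← Complex.exp_add]
  simp

/-- the imaginary axis: `2 AA-type` relation between `Z` and the amplitude -/
theorem slit_sin (τ : ℝ) :
    kk η * Real.sin (pv η τ) * (1 + (Z η (τ * I)).im ^ 2) = 2 * (Z η (τ * I)).im := by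
  have hs : |((τ : ℂ) * I).re| < η := by simpa using hη
  set y := (Z η (τ * I)).im with hy
  have hZ : Z η (τ * I) = (y : ℂ) * I := Z_slit τ
  have h1 := OC_exp hη hs
  have h2 := one_sub_Z hη hs
  rw [hZ] at h2
  have h3 : Complex.exp (2 * LL η (τ * I)) * Complex.exp (-2 * LL η (τ * I)) = 1 := by
    rw [← Complex.exp_add]
    simp
  have h4 : Complex.exp (2 * LL η (τ * I)) * (1 - (y : ℂ) * I) = 1 + (y : ℂ) * I := by
    rw [h2, ← mul_assoc, h3, one_mul]
  have h5 : (S (cO η) (τ * I) + 2 * S (cC η) (τ * I)) * (1 - (y : ℂ) * I)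
      = (Bv η : ℂ) * (1 + (y : ℂ) * I) := by
    rw [h1, mul_assoc, h4]
  rw [C_slit hη, S_real (cO_neg η)] at h5
  have hB := Bv_pos hη
  have hgoal : 2 * (Dv η * Real.sin (pv η τ)) * (1 + y ^ 2) = 2 * Bv η * y := by
    generalize Dv η * Real.sin (pv η τ) = σ at h5
    have e1 := congrArg Complex.re h5
    have e2 := congrArg Complex.im h5
    simp at e1 e2
    linear_combination e2 + y * e1
  unfold kk
  field_simp
  linear_combination hgoal / 2

theorem tip_eq : kk η * (1 + tip η ^ 2) = 2 * tip η := by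
  have h := slit_sin hη (Real.pi / 2)
  rw [pv_half_pi, Real.sin_pi_div_two, mul_one] at h
  exact h

theorem tip_pos : 0 < tip η := by
  have h1 := tip_eq hη
  have h2 := kk_pos hη
  have h3 : 0 < kk η * (1 + tip η ^ 2) := by positivity
  linarith

end

theorem tip_strictAnti {η η' : ℝ} (h0 : 0 < η) (h : η < η') : tip η' < tip η := by
  have h0' := h0.trans h
  by_contra hcon
  push Not at hcon
  have h1 := kk_strictAnti h0 h
  have e1 := tip_eq h0
  have e2 := tip_eq h0'
  have p1 := tip_pos h0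
  have p2 := tip_lt_one h0'
  have hk : kk η = 2 * tip η / (1 + tip η ^ 2) := by
    rw [eq_div_iff (by positivity)]
    exact e1
  have hk' : kk η' = 2 * tip η' / (1 + tip η' ^ 2) := by
    rw [eq_div_iff (by positivity)]
    exact e2
  rw [hk, hk', div_lt_div_iff₀ (by positivity) (by positivity)] at h1
  nlinarith [mul_pos p1 (p1.trans_le hcon), mul_nonneg (sub_nonneg.2 hcon)
    (show (0 : ℝ) ≤ 1 - tip η * tip η' by nlinarith)]

/-! ### continuity -/

theorem Dv_cont : ContinuousOn Dv (Ioi 0) := by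
  have h2 : ContinuousOn (fun t => ∑' j : ℕ, sech ((j + 1 / 2) * t)) (Set.Ioi 0) :=
    Exact.RI.cont_aux (g := sech) (by norm_num) Exact.RI.continuous_sech
      (fun x => (Exact.sech_pos x).le) (fun x y hx hxy => Exact.sech_anti hx hxy)
      (fun t ht => Exact.summable_half ht)
  have h3 : ContinuousOn (fun η : ℝ => ∑' j : ℕ, sech ((j + 1 / 2) * (2 * η))) (Set.Ioi 0) :=
    h2.comp (f := fun η : ℝ => 2 * η) (by fun_prop) (fun η hη => by
      have : (0 : ℝ) < η := hη
      show (0 : ℝ) < 2 * η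
      linarith)
  exact h3.congr fun η hη => Dv_eq hη

theorem Bv_eq_tsum (hη : 0 < η) : Bv η = 1 + 2 * ∑' j : ℕ, sech ((j + 1) * (2 * η)) := by
  have h := S_cO_zero (2 * η)
  have e : 2 * η / 2 = η := by ring
  rw [e] at h
  unfold Bv
  rw [h, Exact.tsum_int (by linarith)]

theorem Bv_cont : ContinuousOn Bv (Ioi 0) := by
  have h2 : ContinuousOn (fun t => ∑' j : ℕ, sech ((j + 1) * t)) (Set.Ioi 0) :=
    Exact.RI.cont_aux (g := sech) (by norm_num) Exact.RI.continuous_sech
      (fun x => (Exact.sech_pos x).le) (fun x y hx hxy => Exact.sech_anti hx hxy)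
      (fun t ht => Exact.summable_succ ht)
  have h3 : ContinuousOn (fun η : ℝ => 1 + 2 * ∑' j : ℕ, sech ((j + 1) * (2 * η))) (Set.Ioi 0) :=
    continuousOn_const.add (continuousOn_const.mul
      (h2.comp (f := fun η : ℝ => 2 * η) (by fun_prop) (fun η hη => by
        have : (0 : ℝ) < η := hη
        show (0 : ℝ) < 2 * η
        linarith)))
  exact h3.congr fun η hη => Bv_eq_tsum hη

theorem kk_cont : ContinuousOn kk (Ioi 0) := by
  unfold kk
  exact (continuousOn_const.mul Dv_cont).div Bv_cont fun η hη => (Bv_pos hη).ne'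

/-- **tips of nearby moduli**: for `η' > η` close to `η` the tip is slightly smaller -/
theorem tip_near (hη : 0 < η) {w : ℝ} (hw : 0 < w) : ∃ d : ℝ, 0 < d ∧ ∀ η' : ℝ, η < η' →
    η' < η + d → tip η - w < tip η' ∧ tip η' < tip η := by
  have hp := tip_pos hη
  have h1 := tip_lt_one hη
  set y : ℝ := max (tip η - w) 0 with hy
  have hy0 : 0 ≤ y := le_max_right _ _
  have hy1 : tip η - w ≤ y := le_max_left _ _
  have hy2 : y < tip η := max_lt (by linarith) hp
  have hk : 2 * y / (1 + y ^ 2) < kk η := by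
    have : kk η = 2 * tip η / (1 + tip η ^ 2) := by
      rw [eq_div_iff (by positivity)]
      exact tip_eq hη
    rw [this, div_lt_div_iff₀ (by positivity) (by positivity)]
    nlinarith [mul_pos (sub_pos.2 hy2) (show (0 : ℝ) < 1 - tip η * y by nlinarith)]
  have hc : ContinuousAt kk η := kk_cont.continuousAt (Ioi_mem_nhds hη)
  obtain ⟨d, hd, hball⟩ := Metric.eventually_nhds_iff.1 (hc.eventually_const_lt hk)
  refine ⟨d, hd, fun η' g1 g2 => ⟨?_, tip_strictAnti hη g1⟩⟩
  have h3 := hball (y := η') (by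
    rw [Real.dist_eq, abs_of_pos (by linarith)]
    linarith)
  have h0' : 0 < η' := hη.trans g1
  refine hy1.trans_lt ?_
  by_contra hcon
  push Not at hcon
  have hk' : kk η' = 2 * tip η' / (1 + tip η' ^ 2) := by
    rw [eq_div_iff (by positivity)]
    exact tip_eq h0'
  have p0 := tip_pos h0'
  rw [hk', div_lt_div_iff₀ (by positivity) (by positivity)] at h3
  nlinarith [mul_nonneg (sub_nonneg.2 hcon) (show (0 : ℝ) ≤ 1 - tip η' * y by nlinarith)]

end Pool.Agent.Lib.MP_0430e4_lc.YK
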