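import Pool.Agent.Lib.MP_0430e4_lc.YK.K2
import Pool.Agent.Lib.MP_0430e4_lc.AC.YT7

/-!
# The level inequality for arbitrary certificates, tangent lines, certificates of smaller mass

* `mass_level`: the potential of modulus `t` against an arbitrary certificate (level `l`, mass
  `exp (n c)`): `(t/2) AA(0) (l - sI t n) ≤ n (c - cval t)`.
* `mass_tangent`: the lines of slope `(t/2) AA(0)` support the exponent (helper92's `LowerI`).
* `mass_ex`: certificates of mass `exp (N (cval t - e1))` whose level is only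
  `(1 + θ) e1 / (η AA(0))` below `sI t`.
-/

set_option autoImplicit false

namespace Pool.Agent.Lib.MP_0430e4_lc.YK

open BY AC LPLOW
open Lower (f0)
open Filter Topology

theorem mass_Ar_eq (η : ℝ) : Ar η 0 = Dv η := by
  unfold Ar Dv
  rw [Complex.ofReal_zero]

/-- the level inequality, modulus `t`, arbitrary certificate -/
theorem mass_level {t : ℝ} (ht : 0 < t) {n : ℕ} {l c : ℝ} {f : Wd n → ℝ} (hf : WCert l f)
    (hm : ∑ x, f x ≤ Real.exp (n * c)) :
    t / 2 * Dv (t / 2) * (l - Exact.sI t * n) ≤ n * (c - Exact.cval t) := by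
  have hη : 0 < t / 2 := by linarith
  set η := t / 2 with hηd
  set κ : ℝ := (c - f0 (nm η)) / η with hκ
  set g : ℝ → ℝ := fun s => κ * s + (S (Lower.cU η) (s : ℂ)).re with hg
  have hg0 : g 0 = 0 := maj_zero κ
  have hgd : HasDerivAt g (κ + ((S (cS η) 0).re - 1) / 4) 0 := hasDerivAt_maj hη κ
  have hZd : HasDerivAt (Zr η) (Dv η) 0 := by
    have h2 := hasDerivAt_Zr hη (s := 0) (by simpa using hη)
    refine h2.congr_deriv ?_
    rw [Zr_zero, mass_Ar_eq]
    ring
  set d : ℝ := n * (κ + ((S (cS η) 0).re - 1) / 4) - l * Dv η with hd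
  have hder : HasDerivAt (fun s => Real.exp (n * g s) - 1 - l * Zr η s) d 0 := by
    have h1 := ((hgd.const_mul (n : ℝ)).exp.sub_const 1).sub (hZd.const_mul l)
    refine h1.congr_deriv ?_
    rw [hg0, mul_zero, Real.exp_zero, one_mul]
  have hd0 : 0 ≤ d := by
    by_contra hcon
    push Not at hcon
    obtain ⟨e, he, h⟩ := near_le (θ := -d / 2) (by linarith)
      (g := fun s => Real.exp (n * g s) - 1 - l * Zr η s)
      (by simp [hg0, Zr_zero]) hder
    set s : ℝ := min (e / 2) (η / 2) with hs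
    have hs0 : 0 < s := lt_min (by linarith) (by linarith)
    have hs1 : s < e := (min_le_left _ _).trans_lt (by linarith)
    have hs2 : s < η := (min_le_right _ _).trans_lt (by linarith)
    have h1 := h s hs0 hs1
    have h2 := ubI hη hs0.le hs2 hf hm
    have h3 := Pfr_lower hf (Zr_nonneg hη hs0.le hs2)
    have h4 := Ur_le hη c hs0.le hs2
    have h5 : Real.exp (n * Ur η c s) ≤ Real.exp (n * g s) :=
      Real.exp_le_exp.2 (mul_le_mul_of_nonneg_left h4 (Nat.cast_nonneg n))
    have h6 : (d + -d / 2) * s < 0 := mul_neg_of_neg_of_pos (by linarith) hs0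
    linarith
  have hcrit := slope_crit ht
  rw [← hηd, mass_Ar_eq] at hcrit
  have h7 : κ = (Exact.cval t - f0 (nm η)) / η + (c - Exact.cval t) / η := by
    rw [hκ, ← add_div]
    congr 1
    ring
  have h8 : d = n * (Exact.sI t * Dv η + (c - Exact.cval t) / η) - l * Dv η := by
    rw [hd, h7]
    linear_combination (n : ℝ) * hcrit
  rw [h8] at hd0
  have h9 : η * ((c - Exact.cval t) / η) = c - Exact.cval t := by field_simp
  have h10 := mul_nonneg hη.le hd0
  have h11 : η * (n * (Exact.sI t * Dv η + (c - Exact.cval t) / η) - l * Dv η)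
      = n * (η * ((c - Exact.cval t) / η)) - η * Dv η * (l - Exact.sI t * n) := by ring
  rw [h11, h9] at h10
  linarith

/-- **The tangent lines support the exponent.** -/
theorem mass_tangent_gen {t δ : ℝ} (ht : 0 < t) (hδ : 0 < δ) :
    Exact.cval t + t / 2 * Dv (t / 2) * (1 - 2 * δ - Exact.sI t) ≤ Tensor.ell δ * Real.log 2 := by
  have hη : 0 < t / 2 := by linarith
  have hl2 : 0 < Real.log 2 := Real.log_pos (by norm_num)
  have hD := Dv_pos hη
  apply le_of_forall_pos_le_add
  intro ε hε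
  obtain ⟨c, hc, -, -, n0, h⟩ := near_gen hδ (ε / Real.log 2) (by positivity)
  obtain ⟨f, H, -, hf, hm⟩ := h (max n0 1) (le_max_left _ _)
  have hn : (0 : ℝ) < (max n0 1 : ℕ) := by
    exact_mod_cast lt_of_lt_of_le one_pos (le_max_right n0 1)
  rw [pw_eq_exp] at hm
  have h1 := mass_level ht hf hm
  have h2 : (max n0 1 : ℕ) * (t / 2 * Dv (t / 2) * (1 - 2 * δ + c - Exact.sI t))
      ≤ (max n0 1 : ℕ) * ((Tensor.ell δ + ε / Real.log 2) * Real.log 2 - Exact.cval t) := by
    refine le_trans (le_of_eq ?_) h1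
    ring
  have h3 := le_of_mul_le_mul_left h2 hn
  have h4 : (Tensor.ell δ + ε / Real.log 2) * Real.log 2 = Tensor.ell δ * Real.log 2 + ε := by
    field_simp
  rw [h4] at h3
  have h5 : 0 ≤ t / 2 * Dv (t / 2) * c := by positivity
  linarith

/-- tangent line of modulus `t'` at the point of modulus `t` -/
theorem mass_tangent {t t' : ℝ} (ht : 0 < t) (ht' : 0 < t') :
    t' / 2 * Dv (t' / 2) * (Exact.sI t - Exact.sI t') ≤ Exact.cval t - Exact.cval t' := by
  have h1 := Exact.sI_lt_one ht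
  have h := mass_tangent_gen ht' (δ := (1 - Exact.sI t) / 2) (by linarith)
  rw [ell_I ht] at h
  have h2 : 1 - 2 * ((1 - Exact.sI t) / 2) = Exact.sI t := by ring
  rw [h2] at h
  linarith

/-- the exponent is strictly decreasing in the modulus -/
theorem mass_cval_strictAnti {t t' : ℝ} (ht : 0 < t) (h : t < t') :
    Exact.cval t' < Exact.cval t := by
  have ht' := ht.trans h
  have h1 := mass_tangent ht ht'
  have h2 := sI_strictAnti ht h
  have h3 : 0 < t' / 2 * Dv (t' / 2) := mul_pos (by linarith) (Dv_pos (by linarith))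
  have h4 := mul_pos h3 (sub_pos.2 h2)
  linarith

theorem mass_mono {n : ℕ} {l l' : ℝ} {f : Wd n → ℝ} (hf : WCert l f) (h : l' ≤ l) : WCert l' f :=
  ⟨hf.nonneg, hf.hat, fun x => (mul_le_mul_of_nonneg_right h (hf.nonneg x)).trans (hf.adj x),
    hf.one⟩

/-- **Certificates of smaller mass** with almost the level of the tangent line. -/
theorem mass_ex {t : ℝ} (ht : 0 < t) {θ e0 : ℝ} (hθ : 0 < θ) (he0 : 0 < e0) :
    ∃ e1 Dl : ℝ, 0 < e1 ∧ e1 ≤ e0 ∧ 0 < Dl ∧ t / 2 * Dv (t / 2) * Dl ≤ (1 + θ) * e1 ∧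
      ∃ N1 : ℕ, ∀ N ≥ N1, ∃ (f : Wd N → ℝ) (H : ℕ → ℝ), RadF f H ∧
        WCert ((Exact.sI t - Dl) * N) f ∧ ∑ x, f x ≤ Real.exp (N * (Exact.cval t - e1)) := by
  have hη : 0 < t / 2 := by linarith
  have hl2 : 0 < Real.log 2 := Real.log_pos (by norm_num)
  have hD := Dv_pos hη
  set a : ℝ := t / 2 * Dv (t / 2) with ha
  have ha0 : 0 < a := mul_pos hη hD
  set u : ℝ := min θ 1 with hu
  have hu0 : 0 < u := lt_min hθ one_pos
  have hu1 : u ≤ 1 := min_le_right _ _
  have hu2 : u ≤ θ := min_le_left _ _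
  set q : ℝ := a / (1 + u / 4) with hq
  have hq1 : (1 + u / 4) * q = a := by
    rw [hq]
    field_simp
  have hqa : q < a := by nlinarith
  have hq0 : 0 < q := by positivity
  -- continuity
  have hc1 : ContinuousAt (fun x : ℝ => x / 2 * Dv (x / 2)) t := by
    have h1 : ContinuousAt Dv (t / 2) := Dv_cont.continuousAt (Ioi_mem_nhds hη)
    have h2 : ContinuousAt (fun x : ℝ => x / 2) t := by fun_prop
    exact h2.mul (ContinuousAt.comp (f := fun x : ℝ => x / 2) h1 h2)
  have hc2 : ContinuousAt Exact.sI t := Exact.sI_continuousOn.continuousAt (Ioi_mem_nhds ht)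
  have hev1 : ∀ᶠ x in 𝓝 t, q < x / 2 * Dv (x / 2) := hc1.eventually_const_lt hqa
  have hev2 : ∀ᶠ x in 𝓝 t, Exact.sI t - e0 / a < Exact.sI x :=
    hc2.eventually_const_lt (by
      have : 0 < e0 / a := by positivity
      linarith)
  obtain ⟨d, hd, hball⟩ := Metric.eventually_nhds_iff.1 (hev1.and hev2)
  set t' : ℝ := t + d / 2 with ht'
  have htt : t < t' := by rw [ht']; linarith
  have ht'0 : 0 < t' := ht.trans htt
  obtain ⟨g1, g2⟩ := hball (y := t') (by
    rw [Real.dist_eq, ht', abs_of_pos (by linarith)]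
    linarith)
  set Dl : ℝ := Exact.sI t - Exact.sI t' with hDl
  have hDl0 : 0 < Dl := sub_pos.2 (sI_strictAnti ht htt)
  set Δ : ℝ := Exact.cval t - Exact.cval t' with hΔ
  have hT1 : t' / 2 * Dv (t' / 2) * Dl ≤ Δ := mass_tangent ht ht'0
  have hT2 : Δ ≤ a * Dl := by
    have := mass_tangent ht'0 ht
    have e : Exact.sI t' - Exact.sI t = -Dl := by rw [hDl]; ring
    rw [e, ← ha] at this
    rw [hΔ]
    linarith
  have hΔ0 : 0 < Δ := sub_pos.2 (mass_cval_strictAnti ht htt)
  have hqD : q * Dl ≤ Δ := (mul_le_mul_of_nonneg_right g1.le hDl0.le).trans hT1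
  have hDle : a * Dl < e0 := by
    have h1 : Dl < e0 / a := by rw [hDl]; linarith
    rw [lt_div_iff₀ ha0] at h1
    linarith
  refine ⟨(1 - u / 4) * Δ, Dl, mul_pos (by linarith) hΔ0, ?_, hDl0, ?_, ?_⟩
  · have : (1 - u / 4) * Δ ≤ 1 * Δ := mul_le_mul_of_nonneg_right (by linarith) hΔ0.le
    linarith
  · calc a * Dl = (1 + u / 4) * (q * Dl) := by rw [← hq1]; ring
      _ ≤ (1 + u / 4) * Δ := mul_le_mul_of_nonneg_left hqD (by linarith)
      _ ≤ ((1 + u) * (1 - u / 4)) * Δ := by
          apply mul_le_mul_of_nonneg_right _ hΔ0.le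
          nlinarith
      _ = (1 + u) * ((1 - u / 4) * Δ) := by ring
      _ ≤ (1 + θ) * ((1 - u / 4) * Δ) := by
          apply mul_le_mul_of_nonneg_right (by linarith)
          exact mul_nonneg (by linarith) hΔ0.le
  · have h1 := Exact.sI_lt_one ht'0
    obtain ⟨c, hc, -, -, n0, h⟩ := near_gen (δ := (1 - Exact.sI t') / 2) (by linarith)
      (u / 4 * Δ / Real.log 2) (by positivity)
    refine ⟨n0, fun N hN => ?_⟩
    obtain ⟨f, H, hR, hf, hm⟩ := h N hN
    refine ⟨f, H, hR, mass_mono hf ?_, hm.trans ?_⟩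
    · have h2 : Exact.sI t - Dl = Exact.sI t' := by rw [hDl]; ring
      rw [h2]
      apply mul_le_mul_of_nonneg_right _ (Nat.cast_nonneg N)
      linarith
    · rw [pw_eq_exp, add_mul, ell_I ht'0, div_mul_cancel₀ _ hl2.ne']
      apply Real.exp_le_exp.2
      apply mul_le_mul_of_nonneg_left _ (Nat.cast_nonneg N)
      rw [hΔ]
      nlinarith

end Pool.Agent.Lib.MP_0430e4_lc.YK
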